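import Mathlib
import Pool.Agent.NHI.Main
import Pool.Agent.NHI.Lin
import Pool.Agent.NHI.Aff3

/-! Bounds for the second largest non-hitting index of `q + 1` points, `q` odd. -/

namespace Pool.Agent.Results.MP_8b6d0b_co.Bounds

open Projectivization
open scoped LinearAlgebra.Projectivization
open Pool.Agent.NHI

/-- `U(q)`: the largest value of the non-hitting index on sets of `q + 1` points that is smaller
than `q (q - 1) / 2`. -/
noncomputable def U (F : Type) [Field F] [Fintype F] : ℕ :=
  sSup {u : ℕ | ∃ S : Set (ℙ F (Fin 3 → F)), S.ncard = Fintype.card F + 1 ∧ u0 S = u ∧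
    u < Fintype.card F * (Fintype.card F - 1) / 2}

theorem no_penultimate (F : Type) [Field F] [Fintype F] (hodd : Odd (Fintype.card F))
    (h7 : 7 ≤ Fintype.card F) (S : Set (ℙ F (Fin 3 → F))) (hS : S.ncard = Fintype.card F + 1) :
    u0 S + 1 ≠ Fintype.card F * (Fintype.card F - 1) / 2 := by
  classical
  intro hu
  have hF : ringChar F ≠ 2 := by
    intro h
    have he := FiniteField.even_card_of_char_two h
    rcases hodd with ⟨k, hk⟩
    omega
  have h20 : (2 : F) ≠ 0 := Ring.two_ne_zero hF
  haveI : Finite (ℙ F (Fin 3 → F)) := inferInstance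
  haveI : Fintype (ℙ F (Fin 3 → F)) := Fintype.ofFinite _
  have hcard : Fintype.card (ℙ F (Fin 3 → F)) =
      Fintype.card F ^ 2 + Fintype.card F + 1 := by
    rw [Fintype.card_eq_nat_card, Projectivization.card_of_finrank F (Fin 3 → F) (n := 3) (by simp)]
    simp [Finset.sum_range_succ]
    ring
  have hord : Configuration.ProjectivePlane.order (ℙ F (Fin 3 → F)) (ℙ F (Fin 3 → F)) =
      Fintype.card F := by
    have h := Configuration.ProjectivePlane.card_points (ℙ F (Fin 3 → F)) (ℙ F (Fin 3 → F))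
    rw [hcard] at h
    generalize Configuration.ProjectivePlane.order (ℙ F (Fin 3 → F)) (ℙ F (Fin 3 → F)) = n at h
    generalize Fintype.card F = m at h
    rcases lt_trichotomy n m with h' | h' | h'
    · nlinarith
    · exact h'
    · nlinarith
  have hSc : S.toFinset.card = Fintype.card F + 1 := by
    rw [← hS, Set.ncard_eq_toFinset_card']
  have hu0 : u0 S = (Finset.univ.filter fun l : ℙ F (Fin 3 → F) => nn S.toFinset l = 0).card := by
    unfold u0
    rw [Set.ncard_eq_toFinset_card']
    congr 1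
    ext l
    simp only [Set.mem_toFinset, Set.mem_setOf_eq, Finset.mem_filter, Finset.mem_univ, true_and]
    unfold nn
    rw [Finset.card_eq_zero, Finset.filter_eq_empty_iff]
    constructor
    · intro h P hP hm
      rw [Configuration.ofField.mem_iff, orthogonal_comm] at hm
      exact h P (Set.mem_toFinset.1 hP) hm
    · intro h P hP hm
      refine h (Set.mem_toFinset.2 hP) ?_
      rw [Configuration.ofField.mem_iff, orthogonal_comm]
      exact hm
  obtain ⟨r, hr⟩ : ∃ r, Fintype.card F = 2 * r + 1 := hodd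
  have hkey : 2 * (Finset.univ.filter fun l : ℙ F (Fin 3 → F) => nn S.toFinset l = 0).card + 2 +
      Fintype.card F = Fintype.card F * Fintype.card F := by
    rw [← hu0]
    rw [hr] at hu ⊢
    have e2 : (2 * r + 1) * (2 * r + 1 - 1) = 2 * (2 * (r * r) + r) := by
      rw [Nat.add_sub_cancel]; ring
    have e3 : (2 * r + 1) * (2 * r + 1) = 4 * (r * r) + 4 * r + 1 := by ring
    rw [e2, Nat.mul_div_cancel_left _ (by norm_num)] at hu
    rw [e3]
    omega
  obtain ⟨l0, h3, h2⟩ := unique_tri S.toFinset hord hSc hkey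
  obtain ⟨T, hT⟩ := to_cfg S.toFinset hSc l0 h3 h2
  by_cases h8 : Fintype.card F = 7
  · exact hT.false7 h20 h8
  · exact hT.false h20 (by omega)

theorem result (F : Type) [Field F] [Fintype F] (hodd : Odd (Fintype.card F))
    (h5 : 5 ≤ Fintype.card F) :
    (Fintype.card F ^ 2 - 2 * Fintype.card F + 3) / 2 ≤ U F ∧
      (Fintype.card F = 5 → U F = 9) ∧
      (Fintype.card F = 7 → U F = 19) ∧
      (7 ≤ Fintype.card F → U F ≤ Fintype.card F * (Fintype.card F - 1) / 2 - 2) := by
  have hF : ringChar F ≠ 2 := by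
    intro h
    have he := FiniteField.even_card_of_char_two h
    rcases hodd with ⟨k, hk⟩
    omega
  have hu := u0_SS (F := F) hF
  have hc := SS_card (F := F)
  obtain ⟨r, hr⟩ : ∃ r, Fintype.card F = 2 * r + 1 := id hodd
  have hval : u0 (SS F) = (Fintype.card F ^ 2 - 2 * Fintype.card F + 3) / 2 := by
    rw [hr] at hu ⊢
    have e1 : (2 * r + 1 - 1) ^ 2 = 4 * (r * r) := by
      rw [Nat.add_sub_cancel]; ring
    have e2 : (2 * r + 1) ^ 2 - 2 * (2 * r + 1) + 3 = 4 * (r * r) + 2 := by
      have : (2 * r + 1) ^ 2 = 4 * (r * r) + 4 * r + 1 := by ring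
      have h2 : 1 ≤ r := by omega
      have h3 : 1 ≤ r * r := Nat.mul_pos h2 h2
      omega
    rw [e1] at hu
    rw [e2]
    omega
  have hlt : u0 (SS F) < Fintype.card F * (Fintype.card F - 1) / 2 := by
    rw [hr] at hu h5 ⊢
    have e1 : (2 * r + 1 - 1) ^ 2 = 4 * (r * r) := by
      rw [Nat.add_sub_cancel]; ring
    have e2 : (2 * r + 1) * (2 * r + 1 - 1) = 2 * (2 * (r * r) + r) := by
      rw [Nat.add_sub_cancel]; ring
    rw [e1] at hu
    rw [e2, Nat.mul_div_cancel_left _ (by norm_num)]
    omega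
  have hmem : u0 (SS F) ∈ {u : ℕ | ∃ S : Set (ℙ F (Fin 3 → F)),
      S.ncard = Fintype.card F + 1 ∧ u0 S = u ∧
      u < Fintype.card F * (Fintype.card F - 1) / 2} := ⟨SS F, hc, rfl, hlt⟩
  have hbdd : BddAbove {u : ℕ | ∃ S : Set (ℙ F (Fin 3 → F)),
      S.ncard = Fintype.card F + 1 ∧ u0 S = u ∧
      u < Fintype.card F * (Fintype.card F - 1) / 2} :=
    ⟨_, fun u hu => (hu.choose_spec.2.2).le⟩
  have hle : (Fintype.card F ^ 2 - 2 * Fintype.card F + 3) / 2 ≤ U F := by
    rw [← hval]
    exact le_csSup hbdd hmem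
  have hup : 7 ≤ Fintype.card F → U F ≤ Fintype.card F * (Fintype.card F - 1) / 2 - 2 := by
    intro h7
    apply csSup_le ⟨_, hmem⟩
    rintro u ⟨S, hS, hSu, h⟩
    have := no_penultimate F hodd h7 S hS
    rw [hSu] at this
    omega
  refine ⟨hle, ?_, ?_, hup⟩
  · intro hq
    apply le_antisymm
    · apply csSup_le ⟨_, hmem⟩
      rintro u ⟨S, _, _, h⟩
      rw [hq] at h
      norm_num at h
      omega
    · rw [hq] at hle
      norm_num at hle
      exact hle
  · intro hq
    have h1 := hup (by omega)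
    rw [hq] at h1 hle
    norm_num at h1 hle
    omega

end Pool.Agent.Results.MP_8b6d0b_co.Bounds
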